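import Pool.Agent.H753R3.SC.Stmts4

/-!
Task N of project H753-SC.
-/

set_option autoImplicit false

namespace Pool.Agent.H537R3.SC

open Set Pool.Agent.H753R3.SC

theorem taskN : TaskN := by
  intro P _ _ _ K L hL hK
  have key : ∀ n : ℕ, ∃ F : Set P, F.Finite ∧ F ⊆ K ∧
      ∀ h : Fin n → P, (∀ i, h i ∈ L) → ∃ x ∈ F, ∀ i, ¬ h i ≤ x := by
    intro n
    by_contra hcon
    push Not at hcon
    have hcomp : IsCompact (Set.pi univ (fun _ : Fin n => L)) := isCompact_univ_pi fun _ => hL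
    have hne := hcomp.inter_iInter_nonempty (fun x : K => {h : Fin n → P | ∃ i, h i ≤ (x : P)})
      (fun x => by
        have e : {h : Fin n → P | ∃ i, h i ≤ (x : P)} = ⋃ i, {h : Fin n → P | h i ≤ (x : P)} := by
          ext h; simp
        rw [e]
        refine isClosed_iUnion_of_finite fun i => ?_
        exact isClosed_Iic.preimage (continuous_apply i))
      (fun u => by
        obtain ⟨h, h1, h2⟩ := hcon ((fun x : K => (x : P)) '' (u : Set K))
          (u.finite_toSet.image _) (by rintro _ ⟨x, -, rfl⟩; exact x.2)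
        refine ⟨h, fun i _ => h1 i, ?_⟩
        simp only [mem_iInter]
        intro x hx
        exact h2 x ⟨x, hx, rfl⟩)
    obtain ⟨h, h1, h2⟩ := hne
    classical
    obtain ⟨x, hx, hx2⟩ := hK (Finset.univ.image h) (by
      intro y hy
      obtain ⟨i, -, rfl⟩ := Finset.mem_image.1 hy
      exact h1 i (mem_univ i))
    have h3 := mem_iInter.1 h2 ⟨x, hx⟩
    obtain ⟨i, hi⟩ := h3
    exact hx2 (h i) (Finset.mem_image.2 ⟨i, Finset.mem_univ i, rfl⟩) hi
  choose F hF1 hF2 hF3 using key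
  obtain ⟨x0, hx0, -⟩ := hK ∅ (by simp)
  have hcount : (insert x0 (⋃ n, F n)).Countable :=
    (countable_iUnion fun n => (hF1 n).countable).insert x0
  obtain ⟨y, hy⟩ := hcount.exists_eq_range ⟨x0, mem_insert _ _⟩
  refine ⟨y, fun k => ?_, fun H hH => ?_⟩
  · have h1 : y k ∈ insert x0 (⋃ n, F n) := by rw [hy]; exact ⟨k, rfl⟩
    rcases h1 with h1 | h1
    · rw [h1]; exact hx0
    · obtain ⟨n, hn⟩ := mem_iUnion.1 h1
      exact hF2 n hn
  · obtain ⟨x, hx, hx2⟩ := hF3 H.card (fun i => (H.equivFin.symm i : P))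
      (fun i => hH _ (H.equivFin.symm i).2)
    have h1 : x ∈ insert x0 (⋃ n, F n) := mem_insert_of_mem _ (mem_iUnion.2 ⟨_, hx⟩)
    rw [hy] at h1
    obtain ⟨k, rfl⟩ := h1
    refine ⟨k, fun h hh => ?_⟩
    have := hx2 (H.equivFin ⟨h, hh⟩)
    simpa using this

end Pool.Agent.H537R3.SC
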